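import Pool.Agent.Work.MP_ef7f46_tn.Interface

/-!
Block FIN of project TN: the theorem for all small `ε`.
-/

set_option autoImplicit false
open Classical Finset

noncomputable section

namespace TN

namespace FIN

/-- the constant -/
def cc : ℝ := 1 / (2 ^ 69 * 800 * 800 * 67)

lemma scalar (u : ℕ) (ε : ℝ) (hε : 0 < ε) (hε1 : ε < 1) (hu : 2 ^ 69 ≤ u)
    (hu2 : Real.exp 800 ≤ u) (h : 1 < 8 * ε * ((u : ℝ) + 1) ^ 66) :
    cc * (1 / ε) * Real.log (1 / ε) ≤ (lamf u : ℝ) * (u : ℝ) ^ 66 / 800 := by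
  have hu1 : (1 : ℝ) ≤ u := by
    have : 1 ≤ u := le_trans (by norm_num) hu
    exact_mod_cast this
  have hu0 : (0 : ℝ) < u := by linarith
  have hu66 : (1 : ℝ) ≤ (u : ℝ) ^ 66 := one_le_pow₀ hu1
  have h1 : ((u : ℝ) + 1) ^ 66 ≤ 2 ^ 66 * (u : ℝ) ^ 66 := by
    rw [← mul_pow]
    apply pow_le_pow_left₀ (by linarith)
    linarith
  have h2 : 1 / ε ≤ 2 ^ 69 * (u : ℝ) ^ 66 := by
    rw [div_le_iff₀ hε]
    have h3 : 8 * ε * ((u : ℝ) + 1) ^ 66 ≤ 8 * ε * (2 ^ 66 * (u : ℝ) ^ 66) :=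
      mul_le_mul_of_nonneg_left h1 (by positivity)
    have h4 : 8 * ε * (2 ^ 66 * (u : ℝ) ^ 66) = 2 ^ 69 * (u : ℝ) ^ 66 * ε := by ring
    linarith
  have hlogu : 800 ≤ Real.log u := by
    rw [Real.le_log_iff_exp_le hu0]
    exact hu2
  have h3 : Real.log (1 / ε) ≤ 67 * Real.log u := by
    have h4 : 1 / ε ≤ (u : ℝ) ^ 67 := by
      refine h2.trans ?_
      have h5 : (2 : ℝ) ^ 69 ≤ u := by exact_mod_cast hu
      calc (2 : ℝ) ^ 69 * (u : ℝ) ^ 66 ≤ u * (u : ℝ) ^ 66 :=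
            mul_le_mul_of_nonneg_right h5 (by positivity)
        _ = (u : ℝ) ^ 67 := by ring
    have h5 := Real.log_le_log (by positivity) h4
    rw [Real.log_pow] at h5
    exact_mod_cast h5
  have h3' : 0 ≤ Real.log (1 / ε) := by
    apply Real.log_nonneg
    rw [le_div_iff₀ hε]
    linarith
  have h4 : Real.log u / 800 ≤ lamf u := by
    have h5 := Nat.lt_floor_add_one (Real.log u / 400)
    unfold lamf
    linarith
  have hc : (0 : ℝ) < cc := by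
    unfold cc
    positivity
  calc cc * (1 / ε) * Real.log (1 / ε) ≤ cc * (2 ^ 69 * (u : ℝ) ^ 66) * (67 * Real.log u) := by
        apply mul_le_mul _ h3 h3' (by positivity)
        exact mul_le_mul_of_nonneg_left h2 hc.le
    _ = Real.log u / 800 * (u : ℝ) ^ 66 / 800 := by
        unfold cc
        field_simp
    _ ≤ (lamf u : ℝ) * (u : ℝ) ^ 66 / 800 := by
        apply div_le_div_of_nonneg_right _ (by norm_num)
        exact mul_le_mul_of_nonneg_right h4 (by positivity)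

lemma exists_u (ε : ℝ) (hε : 0 < ε) : ∃ u : ℕ, 8 * ε * (u : ℝ) ^ 66 ≤ 1 ∧
    1 < 8 * ε * ((u : ℝ) + 1) ^ 66 := by
  have hex : ∃ u : ℕ, 1 < 8 * ε * ((u : ℝ) + 1) ^ 66 := by
    obtain ⟨n, hn⟩ := exists_nat_gt (1 / (8 * ε))
    refine ⟨n, ?_⟩
    rw [div_lt_iff₀ (by positivity)] at hn
    have h1 : ((n : ℝ) + 1) ≤ ((n : ℝ) + 1) ^ 66 := by
      apply le_self_pow₀ _ (by norm_num)
      have : (0 : ℝ) ≤ n := Nat.cast_nonneg _
      linarith
    have h2 : 8 * ε * ((n : ℝ) + 1) ≤ 8 * ε * ((n : ℝ) + 1) ^ 66 :=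
      mul_le_mul_of_nonneg_left h1 (by positivity)
    have h3 : 8 * ε * ((n : ℝ) + 1) = n * (8 * ε) + 8 * ε := by ring
    linarith
  refine ⟨Nat.find hex, ?_, Nat.find_spec hex⟩
  rcases Nat.eq_zero_or_pos (Nat.find hex) with h0 | h0
  · rw [h0]
    norm_num
  · have h1 := Nat.find_min hex (m := Nat.find hex - 1) (by omega)
    rw [not_lt] at h1
    have h2 : (((Nat.find hex - 1 : ℕ) : ℝ) + 1) = (Nat.find hex : ℝ) := by
      rw [Nat.cast_sub h0]
      push_cast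
      ring
    rw [h2] at h1
    exact h1

end FIN

open FIN in
theorem fin_ok (h1 : Stmt_CLS) (h2 : Stmt_WTD) : Stmt_FIN := by
  obtain ⟨u₁, hu₁⟩ := h1
  obtain ⟨u₂, hu₂⟩ := h2
  obtain ⟨n, hn⟩ := exists_nat_ge (Real.exp 800)
  obtain ⟨U, hU⟩ : ∃ U : ℕ, U = max (max u₁ u₂) (max (2 ^ 69) n) := ⟨_, rfl⟩
  refine ⟨cc, by unfold cc; positivity, 1 / (8 * ((U : ℝ) + 1) ^ 66), by positivity, ?_, ?_⟩
  · rw [div_lt_one (by positivity)]
    have : (1 : ℝ) ≤ ((U : ℝ) + 1) ^ 66 := by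
      apply one_le_pow₀
      have : (0 : ℝ) ≤ U := Nat.cast_nonneg _
      linarith
    linarith
  · intro ε hε hεε
    have hU0 : (0 : ℝ) ≤ U := Nat.cast_nonneg _
    have hU1 : (1 : ℝ) ≤ ((U : ℝ) + 1) ^ 66 := one_le_pow₀ (by linarith)
    rw [lt_div_iff₀ (by positivity)] at hεε
    have hε1 : ε < 1 := by
      have : ε * 8 ≤ ε * (8 * ((U : ℝ) + 1) ^ 66) :=
        mul_le_mul_of_nonneg_left (by linarith) hε.le
      linarith
    obtain ⟨u, hu, hu'⟩ := exists_u ε hε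
    have hUu : U ≤ u := by
      by_contra hcon
      rw [not_le] at hcon
      have h3 : (u : ℝ) + 1 ≤ (U : ℝ) + 1 := by
        have : (u : ℝ) ≤ U := by exact_mod_cast hcon.le
        linarith
      have h4 : ((u : ℝ) + 1) ^ 66 ≤ ((U : ℝ) + 1) ^ 66 := pow_le_pow_left₀ (by positivity) h3 66
      have h5 : 8 * ε * ((u : ℝ) + 1) ^ 66 ≤ 8 * ε * ((U : ℝ) + 1) ^ 66 :=
        mul_le_mul_of_nonneg_left h4 (by positivity)
      have h6 : 8 * ε * ((U : ℝ) + 1) ^ 66 = ε * (8 * ((U : ℝ) + 1) ^ 66) := by ring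
      linarith
    have hu₁u : u₁ ≤ u := by omega
    have hu₂u : u₂ ≤ u := by omega
    have h69 : 2 ^ 69 ≤ u := by omega
    have hnu : n ≤ u := by omega
    have hexp : Real.exp 800 ≤ u := hn.trans (by exact_mod_cast hnu)
    have hu1 : 1 ≤ u := le_trans (by norm_num) h69
    have hupos : (0 : ℝ) < u := by exact_mod_cast hu1
    have hεu : ε ≤ 1 / (8 * (u : ℝ) ^ 66) := by
      rw [le_div_iff₀ (by positivity)]
      have : ε * (8 * (u : ℝ) ^ 66) = 8 * ε * (u : ℝ) ^ 66 := by ring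
      linarith
    have hsc := scalar u ε hε hε1 h69 hexp hu'
    constructor
    · obtain ⟨P, hP, hT⟩ := hu₁ u hu₁u
      exact ⟨P, hP, fun T hTT => hsc.trans (hT ε hε hεu T hTT)⟩
    · obtain ⟨P, w, hP, hw, hN⟩ := hu₂ u hu₂u ε hε hεu
      exact ⟨P, w, hP, hw, fun N h3 h4 => hsc.trans (hN N h3 h4)⟩

end TN
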