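import Pool.Agent.Work.MP_ef7f46_tn.Interface

/-!
Block PST of project TN: one step of the potential.
-/

set_option autoImplicit false
open Classical Finset

noncomputable section

namespace TN

theorem pst_ok (h1 : Stmt_PSI) (h2 : Stmt_LCARD) (h3 : Stmt_STB) (h4 : Stmt_MUL)
    (h5 : Stmt_BALA) : Stmt_PST := by
  intro Q Λ _ _ X hX S hS hbig β hβ I
  have hNpos : (0 : ℝ) < X.N := by exact_mod_cast hX.lin.Npos
  have hmpos : (0 : ℝ) < X.m := by exact_mod_cast hX.mpos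
  have hC1 := hX.Cpos
  have hC0 : 0 < X.C := by linarith
  have hlam0 : (0 : ℝ) ≤ X.lam := Nat.cast_nonneg _
  have hRc : 0 < Rc X := by
    unfold Rc
    positivity
  obtain ⟨hst1, _, hst3, _⟩ := h3 Q Λ X hX
  obtain ⟨hU, hphi⟩ := hst3 S hS
  obtain ⟨_, hdc, hdg0, _⟩ := h2 Q Λ X.inc X.N X.M hX.lin
  obtain ⟨F, hF⟩ : ∃ F, F = Fs X S β I := ⟨_, rfl⟩
  obtain ⟨h, hh0⟩ : ∃ h : Λ → ℝ, h = fun ℓ => hh X β F ℓ := ⟨_, rfl⟩
  have hh1 : ∀ ℓ, 0 ≤ h ℓ ∧ h ℓ ≤ 1 := by
    intro ℓ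
    rw [hh0]
    refine ⟨(hst1 β F ℓ).1, (hst1 β F ℓ).2.trans ?_⟩
    rw [div_le_one hmpos]
    exact_mod_cast hX.lamm
  have hwc : ∀ ℓ, 0 ≤ wc X S ℓ ∧ wc X S ℓ ≤ Rc X := by
    intro ℓ
    have h6 := hU ℓ
    refine ⟨?_, ?_⟩
    · have := h6.1
      rw [le_div_iff₀ hRc] at this
      linarith
    · have := h6.2
      rw [div_le_one hRc] at this
      exact this
  have hFI : F ⊆ I := by
    rw [hF]
    exact Finset.filter_subset _ _
  have hbG : bigG X S.W = big X S.W := by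
    unfold bigG
    rw [if_pos hbig]
  have hFj : ∀ j ∈ F, β j ∉ Exc X (fun ℓ => wc X S ℓ / Rc X) ∧ G X S.W (β j) ≤ 3 := by
    intro j hj
    rw [hF] at hj
    have h6 := (Finset.mem_filter.mp hj).2
    unfold ex0 at h6
    rw [Finset.mem_union, not_or, hbG] at h6
    refine ⟨h6.1, ?_⟩
    by_contra h7
    rw [not_le] at h7
    exact h6.2 (Finset.mem_filter.mpr ⟨Finset.mem_univ _, h7⟩)
  -- the two balance inequalities
  have hA := h5 Q Λ X hX (wc X S) (Rc X) hRc hwc β hβ F (fun j hj => (hFj j hj).1)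
  have hM := h4 Q Λ X (wc X S) (Rc X) hwc β F
  -- hit mass
  have hitW : (∑ ℓ, if ∃ j ∈ F, β j ∈ X.inc ℓ then S.W ℓ else 0) ≤ 3 * X.N * I.card := by
    have h6 : (∑ ℓ, if ∃ j ∈ F, β j ∈ X.inc ℓ then S.W ℓ else 0) ≤
        ∑ j ∈ F, dg X.inc S.W (β j) := by
      unfold dg
      rw [Finset.sum_comm]
      apply Finset.sum_le_sum
      intro ℓ _
      by_cases h7 : ∃ j ∈ F, β j ∈ X.inc ℓ
      · rw [if_pos h7]
        obtain ⟨j, hj, hjl⟩ := h7
        have h8 := Finset.single_le_sum (f := fun j => if β j ∈ X.inc ℓ then S.W ℓ else 0)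
          (s := F) (fun i _ => by
            split_ifs
            · exact (hS ℓ).1
            · exact le_rfl) hj
        simp only [if_pos hjl] at h8
        exact h8
      · rw [if_neg h7]
        apply Finset.sum_nonneg
        intro i _
        split_ifs
        · exact (hS ℓ).1
        · exact le_rfl
    refine h6.trans ?_
    have h9 : ∑ j ∈ F, dg X.inc S.W (β j) ≤ ∑ _j ∈ F, 3 * (X.N : ℝ) := by
      apply Finset.sum_le_sum
      intro j hj
      have := (hFj j hj).2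
      unfold G at this
      rw [div_le_iff₀ hNpos] at this
      exact this
    refine h9.trans ?_
    rw [Finset.sum_const, nsmul_eq_mul]
    have h10 : (F.card : ℝ) ≤ I.card := by exact_mod_cast Finset.card_le_card hFI
    have := mul_le_mul_of_nonneg_right h10 (show 0 ≤ 3 * (X.N : ℝ) by positivity)
    linarith
  -- pointwise inequality for lines
  have hline : ∀ ℓ, X.C * (phi X S.W ℓ * ((step X S β I).W ℓ - S.W ℓ)) +
      ((step X S β I).s ℓ * (step X S β I).W ℓ - S.s ℓ * S.W ℓ) ≤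
      wc X S ℓ * h ℓ - (if ∃ j ∈ F, β j ∈ X.inc ℓ then wc X S ℓ else 0) +
        2 * (if ∃ j ∈ F, β j ∈ X.inc ℓ then S.W ℓ else 0) := by
    intro ℓ
    obtain ⟨hW0, _, hs0, _⟩ := hS ℓ
    obtain ⟨hp0, _⟩ := hphi ℓ
    obtain ⟨hh0', hh1'⟩ := hh1 ℓ
    have hws : (step X S β I).s ℓ = S.s ℓ + h ℓ := by
      rw [hh0, hF]
      rfl
    have hwW : (step X S β I).W ℓ = if ∃ j ∈ I, β j ∈ X.inc ℓ then 0 else S.W ℓ * (1 + h ℓ) := by
      rw [hh0, hF]
      rfl
    have hwcl : wc X S ℓ = (X.C * phi X S.W ℓ + S.s ℓ + 2) * S.W ℓ := rfl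
    have hprod : 0 ≤ (X.C * phi X S.W ℓ + S.s ℓ) * S.W ℓ := by positivity
    rw [hws, hwW]
    by_cases h7 : ∃ j ∈ I, β j ∈ X.inc ℓ
    · rw [if_pos h7]
      have h8 : 0 ≤ wc X S ℓ * h ℓ := mul_nonneg (hwc ℓ).1 hh0'
      by_cases h9 : ∃ j ∈ F, β j ∈ X.inc ℓ
      · rw [if_pos h9, if_pos h9, hwcl] at *
        nlinarith
      · rw [if_neg h9, if_neg h9]
        nlinarith
    · have h9 : ¬ ∃ j ∈ F, β j ∈ X.inc ℓ := by
        rintro ⟨j, hj, hjl⟩
        exact h7 ⟨j, hFI hj, hjl⟩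
      rw [if_neg h7, if_neg h9, if_neg h9, hwcl]
      have h10 : 0 ≤ S.W ℓ * (h ℓ * (1 - h ℓ)) :=
        mul_nonneg hW0 (mul_nonneg hh0' (by linarith))
      nlinarith
  have hlines := Finset.sum_le_sum (s := (univ : Finset Λ)) (fun ℓ _ => hline ℓ)
  rw [Finset.sum_add_distrib, Finset.sum_add_distrib, Finset.sum_sub_distrib,
    Finset.sum_sub_distrib, ← Finset.mul_sum, ← Finset.mul_sum] at hlines
  -- the potential of the points
  have hpts : ∑ y, psi (G X (step X S β I).W y) ≤ ∑ y, psi (G X S.W y) +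
      ∑ ℓ, phi X S.W ℓ * ((step X S β I).W ℓ - S.W ℓ) +
      1 / 2 * ∑ y, (G X (step X S β I).W y - G X S.W y) ^ 2 := by
    have h6 : ∑ ℓ, phi X S.W ℓ * ((step X S β I).W ℓ - S.W ℓ) =
        ∑ y, psi' (G X S.W y) * (G X (step X S β I).W y - G X S.W y) := by
      have h7 := hdc (fun ℓ => (step X S β I).W ℓ - S.W ℓ) (fun y => psi' (G X S.W y) / X.N)
      have h8 : ∀ y, dg X.inc (fun ℓ => (step X S β I).W ℓ - S.W ℓ) y =
          dg X.inc (step X S β I).W y - dg X.inc S.W y := by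
        intro y
        unfold dg
        rw [← Finset.sum_sub_distrib]
        apply Finset.sum_congr rfl
        intro ℓ _
        split_ifs
        · rfl
        · ring
      have h9 : ∑ y, psi' (G X S.W y) * (G X (step X S β I).W y - G X S.W y) =
          ∑ y, psi' (G X S.W y) / X.N * dg X.inc (fun ℓ => (step X S β I).W ℓ - S.W ℓ) y := by
        apply Finset.sum_congr rfl
        intro y _
        rw [h8]
        unfold G
        ring
      rw [h9, h7]
      apply Finset.sum_congr rfl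
      intro ℓ _
      unfold phi
      rw [← Finset.sum_div]
      ring
    rw [h6, Finset.mul_sum, ← Finset.sum_add_distrib, ← Finset.sum_add_distrib]
    apply Finset.sum_le_sum
    intro y _
    have h7 := (h1 (G X S.W y) (G X (step X S β I).W y)).1
    linarith
  have hpts2 := mul_le_mul_of_nonneg_left hpts hC0.le
  unfold Om
  have hh2 : ∑ ℓ, wc X S ℓ * h ℓ = ∑ ℓ, wc X S ℓ * hh X β F ℓ := by rw [hh0]
  rw [hh2] at hlines
  have h12 : X.C * (∑ y, psi (G X S.W y) + ∑ ℓ, phi X S.W ℓ * ((step X S β I).W ℓ - S.W ℓ) +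
      1 / 2 * ∑ y, (G X (step X S β I).W y - G X S.W y) ^ 2) =
      X.C * ∑ y, psi (G X S.W y) + X.C * ∑ ℓ, phi X S.W ℓ * ((step X S β I).W ℓ - S.W ℓ) +
      X.C / 2 * ∑ y, (G X (step X S β I).W y - G X S.W y) ^ 2 := by ring
  rw [h12] at hpts2
  linarith

end TN
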